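import Mathlib
import Pool.Agent.Lib.MP_3c4a39_co.Main

/-!
# MP_3c4a39_co: the edge-magic linear forests

A linear forest `P_{n_1} ∪ ⋯ ∪ P_{n_r}` (`r ≥ 1`, all `n_i ≥ 1`) is edge-magic if and only if it
is not the union of an even number of copies of `K_2`.
-/

namespace Pool.Agent.Results.MP_3c4a39_co.LinearForests

/-- `G` is edge-magic: with `p = |V(G)|` and `q = |E(G)|` there are a bijection `f` from
`V(G) ∪ E(G)` onto `{1, …, p + q}` and a constant `k` such that `f(u) + f(uv) + f(v) = k` for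
every edge `uv`. -/
def EdgeMagic {V : Type*} (G : SimpleGraph V) : Prop :=
  ∃ (f : V ⊕ G.edgeSet → ℕ) (k : ℕ),
    Set.BijOn f Set.univ (Set.Icc 1 (Nat.card V + Nat.card G.edgeSet)) ∧
    ∀ (u v : V) (h : G.Adj u v),
      f (Sum.inl u) + f (Sum.inr ⟨s(u, v), h⟩) + f (Sum.inl v) = k

/-- The disjoint union of the paths `P_{n 0}, …, P_{n (r - 1)}`: the vertices are the pairs
`⟨i, a⟩` with `i : Fin r` and `a : Fin (n i)`, and two of them are adjacent when they lie in the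
same part `i` and their second entries are adjacent in the path on `Fin (n i)`. -/
def pathUnion {r : ℕ} (n : Fin r → ℕ) : SimpleGraph ((i : Fin r) × Fin (n i)) where
  Adj x y := ∃ (i : Fin r) (a b : Fin (n i)),
    x = ⟨i, a⟩ ∧ y = ⟨i, b⟩ ∧ (SimpleGraph.pathGraph (n i)).Adj a b
  symm := ⟨fun _ _ ⟨i, a, b, hx, hy, h⟩ => ⟨i, b, a, hy, hx, h.symm⟩⟩
  loopless := ⟨fun x ⟨i, a, b, hx, hy, h⟩ => by
    subst hx
    have : a = b := by simpa using hy
    exact h.ne this⟩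

theorem adj_mk {r : ℕ} (n : Fin r → ℕ) (i : Fin r) (a b : Fin (n i)) :
    (pathUnion n).Adj ⟨i, a⟩ ⟨i, b⟩ ↔ ((a : ℕ) + 1 = b ∨ (b : ℕ) + 1 = a) := by
  constructor
  · rintro ⟨j, c, d, hx, hy, h⟩
    obtain ⟨h1, h2⟩ := Sigma.mk.inj_iff.mp hx
    subst h1
    obtain rfl := eq_of_heq h2
    obtain ⟨-, h4⟩ := Sigma.mk.inj_iff.mp hy
    obtain rfl := eq_of_heq h4
    exact SimpleGraph.pathGraph_adj.mp h
  · intro h
    exact ⟨i, a, b, rfl, rfl, SimpleGraph.pathGraph_adj.mpr h⟩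

theorem adj_fst {r : ℕ} {n : Fin r → ℕ} {x y : (i : Fin r) × Fin (n i)}
    (h : (pathUnion n).Adj x y) : x.1 = y.1 := by
  obtain ⟨j, c, d, hx, hy, -⟩ := h
  rw [hx, hy]

/-- the isomorphism with the union of paths given by a list -/
theorem iso_list {r : ℕ} (n : Fin r → ℕ) :
    Nonempty (pathUnion n ≃g Pool.Agent.Lib.MP_3c4a39_co.linForest (List.ofFn n)) := by
  have hl : r = (List.ofFn n).length := (List.length_ofFn).symm
  have hg : ∀ i : Fin r, n i = (List.ofFn n).get (finCongr hl i) := by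
    intro i
    simp
  let e : ((i : Fin r) × Fin (n i)) ≃
      ((i : Fin (List.ofFn n).length) × Fin ((List.ofFn n).get i)) :=
    Equiv.sigmaCongr (finCongr hl) (fun i => finCongr (hg i))
  have he : ∀ (i : Fin r) (a : Fin (n i)), e ⟨i, a⟩ = ⟨finCongr hl i, finCongr (hg i) a⟩ :=
    fun i a => rfl
  refine ⟨⟨e, ?_⟩⟩
  rintro ⟨i, a⟩ ⟨j, b⟩
  rw [he, he]
  constructor
  · rintro ⟨h1, h2⟩
    have h3 : i = j := (finCongr hl).injective h1
    subst h3
    rw [adj_mk]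
    exact h2
  · intro h
    have h3 : i = j := adj_fst h
    subst h3
    rw [adj_mk] at h
    exact ⟨rfl, h⟩

/-- **The edge-magic linear forests.** Let `r ≥ 1`, let `n_1, …, n_r ≥ 1`, and let `G` be a graph
isomorphic to `P_{n_1} ∪ ⋯ ∪ P_{n_r}`. Then `G` is edge-magic if and only if it is not the case
that `r` is even and all `n_i` are equal to `2`. -/
theorem result {V : Type*} (G : SimpleGraph V) (r : ℕ) (hr : 1 ≤ r) (n : Fin r → ℕ)
    (hn : ∀ i, 1 ≤ n i) (hG : Nonempty (G ≃g pathUnion n)) :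
    EdgeMagic G ↔ ¬ (Even r ∧ ∀ i, n i = 2) := by
  obtain ⟨φ⟩ := hG
  obtain ⟨ψ⟩ := iso_list n
  have h1 : EdgeMagic G ↔ Pool.Agent.Lib.MP_3c4a39_co.IsEdgeMagic
      (Pool.Agent.Lib.MP_3c4a39_co.linForest (List.ofFn n)) :=
    Pool.Agent.Lib.MP_3c4a39_co.isEdgeMagic_congr (φ.trans ψ)
  rw [h1, Pool.Agent.Lib.MP_3c4a39_co.classification (List.ofFn n)
    (by intro h; have := congrArg List.length h; simp at this; omega)
    (by intro x hx; obtain ⟨i, rfl⟩ := (List.mem_ofFn' _ _).mp hx; exact hn i)]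
  simp

end Pool.Agent.Results.MP_3c4a39_co.LinearForests
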